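import Pool.Agent.H38R2.CG.Stubs
import Pool.Agent.H38R2.CG.CC5
import Pool.Agent.H38R2.CG.NB
import Pool.Agent.N792.SwR

/-!
# CC6: small f are not bad (Siegel-Walfisz)
-/

set_option autoImplicit false

namespace Run7.h426.CG.CC6

open Finset Filter Pool.Agent.H38R2.CG
open scoped Classical

lemma sum_range_char (q : ℕ) [NeZero q] (χ : DirichletCharacter ℂ q) (hχ : χ ≠ 1) :
    ∑ c ∈ range q, χ (c : ZMod q) = 0 := by
  rw [← MulChar.sum_eq_zero_of_ne_one hχ]
  symm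
  refine Finset.sum_bij (fun (a : ZMod q) _ => a.val) ?_ ?_ ?_ ?_
  · intro a _
    exact mem_range.2 (ZMod.val_lt a)
  · intro a _ b _ h
    exact ZMod.val_injective q h
  · intro b hb
    exact ⟨(b : ZMod q), mem_univ _, ZMod.val_cast_of_lt (mem_range.1 hb)⟩
  · intro a _
    rw [ZMod.natCast_zmod_val]

lemma char_zero (q : ℕ) (χ : DirichletCharacter ℂ q) (c : ℕ) (hc : ¬ c.Coprime q) :
    χ (c : ZMod q) = 0 := by
  apply χ.map_nonunit
  rw [ZMod.isUnit_iff_coprime]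
  exact hc

lemma one_p (q : ℕ) [NeZero q] (χ : DirichletCharacter ℂ q) (hχ : χ ≠ 1) (p : ℕ) :
    ∑ c ∈ range q, χ (c : ZMod q) * ((Pool.Agent.N792.SwR.w q c p : ℝ) : ℂ) = χ (p : ZMod q) := by
  have hq : 0 < q := Nat.pos_of_ne_zero (NeZero.ne q)
  have h1 : ∀ c ∈ range q, χ (c : ZMod q) * ((Pool.Agent.N792.SwR.w q c p : ℝ) : ℂ) =
      (if c = p % q then χ (p : ZMod q) else 0) -
        χ (c : ZMod q) * ((1 / (Nat.totient q : ℝ) : ℝ) : ℂ) := by
    intro c hc
    have hc := mem_range.1 hc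
    unfold Pool.Agent.N792.SwR.w
    by_cases h : c = p % q
    · have h2 : p ≡ c [MOD q] := by rw [h]; exact (Nat.mod_modEq _ _).symm
      rw [if_pos h, if_pos h2, h, ZMod.natCast_mod]
      push_cast
      ring
    · have h2 : ¬ p ≡ c [MOD q] := by
        intro h3
        apply h
        have : c % q = p % q := h3.symm
        rwa [Nat.mod_eq_of_lt hc] at this
      rw [if_neg h, if_neg h2]
      push_cast
      ring
  rw [sum_congr rfl h1, sum_sub_distrib, ← sum_mul, sum_range_char q χ hχ, zero_mul, sub_zero,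
    sum_ite_eq' (range q) (p % q), if_pos (mem_range.2 (Nat.mod_lt _ hq))]

lemma charsum_id (q : ℕ) [NeZero q] (χ : DirichletCharacter ℂ q) (hχ : χ ≠ 1) (S : Finset ℕ) :
    ∑ p ∈ S, χ (p : ZMod q) = ∑ c ∈ (range q).filter (fun c => c.Coprime q),
      χ (c : ZMod q) * ((∑ p ∈ S, Pool.Agent.N792.SwR.w q c p : ℝ) : ℂ) := by
  calc ∑ p ∈ S, χ (p : ZMod q)
      = ∑ p ∈ S, ∑ c ∈ range q, χ (c : ZMod q) * ((Pool.Agent.N792.SwR.w q c p : ℝ) : ℂ) :=
        sum_congr rfl fun p _ => (one_p q χ hχ p).symm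
    _ = ∑ c ∈ range q, χ (c : ZMod q) * ((∑ p ∈ S, Pool.Agent.N792.SwR.w q c p : ℝ) : ℂ) := by
        rw [sum_comm]
        refine sum_congr rfl fun c _ => ?_
        rw [Complex.ofReal_sum, mul_sum]
    _ = _ := by
        rw [sum_filter]
        refine sum_congr rfl fun c _ => ?_
        split_ifs with h
        · rfl
        · rw [char_zero q χ c h, zero_mul]

lemma charsum_bound (q : ℕ) [NeZero q] (χ : DirichletCharacter ℂ q) (hχ : χ ≠ 1) (S : Finset ℕ)
    (E : ℝ) (hE : ∀ c < q, c.Coprime q → |∑ p ∈ S, Pool.Agent.N792.SwR.w q c p| ≤ E) (hE0 : 0 ≤ E) :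
    ‖∑ p ∈ S, χ (p : ZMod q)‖ ≤ q * E := by
  rw [charsum_id q χ hχ S]
  refine (norm_sum_le _ _).trans ?_
  have h1 : ∀ c ∈ (range q).filter (fun c => c.Coprime q),
      ‖χ (c : ZMod q) * ((∑ p ∈ S, Pool.Agent.N792.SwR.w q c p : ℝ) : ℂ)‖ ≤ E := by
    intro c hc
    rw [mem_filter, mem_range] at hc
    rw [norm_mul, Complex.norm_real, Real.norm_eq_abs]
    calc ‖χ (c : ZMod q)‖ * |∑ p ∈ S, Pool.Agent.N792.SwR.w q c p| ≤ 1 * E :=
          mul_le_mul (DirichletCharacter.norm_le_one χ _) (hE c hc.1 hc.2) (abs_nonneg _)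
            zero_le_one
      _ = E := one_mul E
  refine (sum_le_card_nsmul _ _ _ h1).trans ?_
  rw [nsmul_eq_mul]
  have h2 : ((range q).filter (fun c => c.Coprime q)).card ≤ q := by
    have := card_filter_le (range q) (fun c => c.Coprime q)
    rwa [card_range] at this
  have h3 : (((range q).filter (fun c => c.Coprime q)).card : ℝ) ≤ q := by exact_mod_cast h2
  exact mul_le_mul_of_nonneg_right h3 hE0

lemma theta_ne_one (M f : ℕ) [NeZero M] [NeZero f] (ψ : DirichletCharacter ℂ M)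
    (hf : Squarefree f) (hc : f.Coprime (2 * M)) (h : ¬ (ψ = 1 ∧ f = 1)) :
    CC5h.theta M f ψ ≠ 1 := by
  intro h1
  have h2 := CC5h.dvd_cond M f ψ hf hc
  rw [h1, DirichletCharacter.conductor_one, Nat.dvd_one] at h2
  subst h2
  apply h
  refine ⟨?_, rfl⟩
  apply MulChar.ext
  intro a
  have ha : ((a : ZMod M).val).Coprime (M * 1) := by
    rw [mul_one]
    have := a.isUnit
    rw [← ZMod.natCast_zmod_val (a : ZMod M), ZMod.isUnit_iff_coprime] at this
    exact this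
  have h3 := CC5h.theta_apply M 1 ψ (a : ZMod M).val ha
  rw [h1, ZMod.natCast_zmod_val] at h3
  rw [MulChar.one_apply ((ZMod.isUnit_iff_coprime _ _).2 ha)] at h3
  rw [MulChar.one_apply a.isUnit]
  simpa using h3.symm

/-- CC6: small f are not bad. -/
theorem T_CC6 : P_CC6 := by
  intro M hM
  obtain ⟨_, yN, hNB⟩ := T_NB
  obtain ⟨yS, _, hS⟩ := Pool.Agent.N792.SwR.sw_int 6 4
  obtain ⟨y1, h1⟩ := Pool.Agent.N792.SwR.evN _ (Pool.Agent.N792.SwR.ev_pow 4 1 1 one_pos)
  obtain ⟨y2, h2⟩ := Pool.Agent.N792.SwR.evN _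
    (Real.tendsto_log_atTop.eventually_ge_atTop (max 5 (M : ℝ)))
  refine ⟨max (max yN yS) (max y1 (max y2 3)), fun y hy f hf1 hfy hfs hfc => ?_⟩
  have hyN : yN ≤ y := le_trans (le_trans (le_max_left _ _) (le_max_left _ _)) hy
  have hyS : yS ≤ y := le_trans (le_trans (le_max_right _ _) (le_max_left _ _)) hy
  have hy1 : y1 ≤ y := le_trans (le_trans (le_max_left _ _) (le_max_right _ _)) hy
  have hy2 : y2 ≤ y :=
    le_trans (le_trans (le_trans (le_max_left _ _) (le_max_right _ _)) (le_max_right _ _)) hy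
  have hy3 : 3 ≤ y :=
    le_trans (le_trans (le_trans (le_max_right _ _) (le_max_right _ _)) (le_max_right _ _)) hy
  have hL := h2 y hy2
  have hL5 : (5 : ℝ) ≤ Real.log y := (le_max_left _ _).trans hL
  have hLM : (M : ℝ) ≤ Real.log y := (le_max_right _ _).trans hL
  have hL4 := h1 y hy1
  rw [one_mul, Real.rpow_one] at hL4
  have hy0 : (0 : ℝ) < y := by exact_mod_cast (by omega : 0 < y)
  have hL0 : 0 < Real.log y := by linarith
  have : NeZero M := ⟨by omega⟩
  have : NeZero f := ⟨by omega⟩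
  have hq1 : 1 ≤ M * f := Nat.mul_pos hM hf1
  have hqR : ((M * f : ℕ) : ℝ) ≤ Real.log y ^ 4 := by
    push_cast
    calc (M : ℝ) * f ≤ Real.log y * Real.log y ^ 3 :=
          mul_le_mul hLM hfy (Nat.cast_nonneg _) hL0.le
      _ = Real.log y ^ 4 := by ring
  have hqy : M * f ≤ y := by exact_mod_cast hqR.trans hL4
  rintro ⟨ψ, hψ, hbad⟩
  have hne := theta_ne_one M f ψ hfs hfc hψ
  -- replace the product by the character
  have hPP : ∀ p ∈ PP y, p.Prime ∧ y < p ∧ p ≤ 2 * y := by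
    intro p hp
    unfold PP at hp
    rw [mem_filter, mem_Ioc] at hp
    exact ⟨hp.2, hp.1.1, hp.1.2⟩
  have hsum : ∑ p ∈ PP y, ψ (p : ZMod M) * ((jacobiSym (p : ℤ) f : ℤ) : ℂ) =
      ∑ p ∈ PP y, CC5h.theta M f ψ (p : ZMod (M * f)) := by
    refine sum_congr rfl fun p hp => ?_
    obtain ⟨hpp, hyp, _⟩ := hPP p hp
    rw [CC5h.theta_apply]
    rw [Nat.Prime.coprime_iff_not_dvd hpp]
    intro hd
    have := Nat.le_of_dvd hq1 hd
    omega
  rw [hsum] at hbad
  have hE : ∀ c < M * f, c.Coprime (M * f) → |∑ p ∈ PP y, Pool.Agent.N792.SwR.w (M * f) c p| ≤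
      2 / Real.log y ^ 6 * ((2 * y : ℕ) : ℝ) := by
    intro c hc hcc
    exact (hS y y (2 * y) (M * f) c hyS le_rfl hq1 hqR hc hcc).1
  have hb := charsum_bound (M * f) (CC5h.theta M f ψ) hne (PP y) _ hE (by positivity)
  have hN := (hNB y hyN).1
  have h3 : ((M * f : ℕ) : ℝ) * (2 / Real.log y ^ 6 * ((2 * y : ℕ) : ℝ)) ≤
      4 * y / Real.log y ^ 2 := by
    calc ((M * f : ℕ) : ℝ) * (2 / Real.log y ^ 6 * ((2 * y : ℕ) : ℝ))
        ≤ Real.log y ^ 4 * (2 / Real.log y ^ 6 * ((2 * y : ℕ) : ℝ)) :=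
          mul_le_mul_of_nonneg_right hqR (by positivity)
      _ = 4 * y / Real.log y ^ 2 := by
          push_cast
          field_simp
          ring
  have h4 : 4 * y / Real.log y ^ 2 ≤ (9 / 10 : ℝ) * ((9 / 10 : ℝ) * y / Real.log y) := by
    rw [div_le_iff₀ (by positivity)]
    have : (9 / 10 : ℝ) * ((9 / 10 : ℝ) * y / Real.log y) * Real.log y ^ 2 =
        81 / 100 * y * Real.log y := by
      field_simp
      ring
    rw [this]
    nlinarith
  have h5 : (9 / 10 : ℝ) * ((9 / 10 : ℝ) * y / Real.log y) ≤ (9 / 10 : ℝ) * (PP y).card :=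
    mul_le_mul_of_nonneg_left hN (by norm_num)
  exact absurd (hbad.trans_le (hb.trans (h3.trans (h4.trans h5)))) (lt_irrefl _)

end Run7.h426.CG.CC6
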