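import Pool.Agent.H38R2.CG2.Stubs
import Pool.Agent.Run7.h784.CG.Basic

/-!
# HS and NBAD: weighted harmonic sum; the f that are not bad
-/

set_option autoImplicit false

namespace Run7.h426.CG.NBAD

open Finset Filter Pool.Agent.H38R2.CG Pool.Agent.H38R2.CG2
open scoped Classical

/-! ## HS -/

noncomputable def cw (C : ℕ) (n : ℕ) : ℝ := (C : ℝ) ^ n.primeFactors.card

lemma cw_nonneg (C n : ℕ) : 0 ≤ cw C n := by unfold cw; positivity

/-- expansion over the divisors of a squarefree number -/
lemma cw_succ (C f : ℕ) (hf : Squarefree f) :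
    cw (C + 1) f = ∑ g ∈ f.divisors, cw C g := by
  have hf0 : f ≠ 0 := hf.ne_zero
  have h1 : cw (C + 1) f = ∑ T ∈ f.primeFactors.powerset, (C : ℝ) ^ T.card := by
    unfold cw
    have := Finset.sum_pow_mul_eq_add_pow (C : ℝ) 1 f.primeFactors
    simp only [one_pow, mul_one] at this
    rw [this]
    push_cast
    ring
  rw [h1]
  refine Finset.sum_bij (fun T _ => ∏ p ∈ T, p) ?_ ?_ ?_ ?_
  · intro T hT
    rw [mem_powerset] at hT
    rw [Nat.mem_divisors]
    refine ⟨?_, hf0⟩
    calc ∏ p ∈ T, p ∣ ∏ p ∈ f.primeFactors, p := prod_dvd_prod_of_subset _ _ _ hT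
      _ ∣ f := Nat.prod_primeFactors_dvd f
  · intro T hT T' hT' h
    rw [mem_powerset] at hT hT'
    have h2 : (∏ p ∈ T, p).primeFactors = T := Nat.primeFactors_prod fun p hp =>
      Nat.prime_of_mem_primeFactors (hT hp)
    have h3 : (∏ p ∈ T', p).primeFactors = T' := Nat.primeFactors_prod fun p hp =>
      Nat.prime_of_mem_primeFactors (hT' hp)
    rw [← h2, ← h3]
    exact congrArg _ h
  · intro g hg
    rw [Nat.mem_divisors] at hg
    refine ⟨g.primeFactors, mem_powerset.2 (Nat.primeFactors_mono hg.1 hg.2), ?_⟩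
    exact Nat.prod_primeFactors_of_squarefree (hf.squarefree_of_dvd hg.1)
  · intro T hT
    rw [mem_powerset] at hT
    unfold cw
    rw [Nat.primeFactors_prod fun p hp => Nat.prime_of_mem_primeFactors (hT hp)]

lemma sum_inv_le (X : ℕ) : ∑ h ∈ Icc 1 X, (1 : ℝ) / h ≤ 1 + Real.log X := by
  have h1 := harmonic_le_one_add_log X
  refine le_trans (le_of_eq ?_) h1
  rw [harmonic_eq_sum_Icc]
  push_cast
  exact sum_congr rfl fun i _ => by rw [one_div]

lemma sum_mult_le (X g : ℕ) (hg : 1 ≤ g) :
    ∑ f ∈ (Icc 1 X).filter (fun f => g ∣ f), (1 : ℝ) / f ≤ 1 / g * ∑ h ∈ Icc 1 X, (1 : ℝ) / h := by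
  have hsub : (Icc 1 X).filter (fun f => g ∣ f) ⊆ (Icc 1 X).image (fun h => g * h) := by
    intro f hf
    rw [mem_filter, mem_Icc] at hf
    obtain ⟨h, rfl⟩ := hf.2
    rw [mem_image]
    refine ⟨h, ?_, rfl⟩
    rw [mem_Icc]
    have h0 : 0 < h := by
      rcases Nat.eq_zero_or_pos h with h0 | h0
      · rw [h0] at hf
        omega
      · exact h0
    exact ⟨h0, (Nat.le_mul_of_pos_left h hg).trans hf.1.2⟩
  refine (sum_le_sum_of_subset_of_nonneg hsub fun _ _ _ => by positivity).trans ?_
  rw [sum_image (fun a _ b _ h => Nat.eq_of_mul_eq_mul_left hg h), mul_sum]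
  refine le_of_eq (sum_congr rfl fun h _ => ?_)
  push_cast
  rw [one_div_mul_one_div]

theorem T2_HS : P2_HS := by
  intro C1 X hX
  have hlog : 0 ≤ Real.log X := Real.log_natCast_nonneg X
  have key : ∀ C : ℕ, ∑ f ∈ (Icc 1 X).filter Squarefree, cw C f / f ≤ (1 + Real.log X) ^ C := by
    intro C
    induction C with
    | zero =>
      rw [pow_zero]
      have h1 : ∀ f ∈ (Icc 1 X).filter Squarefree, cw 0 f / f ≤ if f = 1 then 1 else 0 := by
        intro f hf
        rw [mem_filter, mem_Icc] at hf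
        split_ifs with h
        · subst h
          unfold cw
          simp
        · have h2 : f.primeFactors.card ≠ 0 := by
            intro h0
            rw [card_eq_zero, Nat.primeFactors_eq_empty] at h0
            omega
          unfold cw
          rw [Nat.cast_zero, zero_pow h2, zero_div]
      refine (sum_le_sum h1).trans ?_
      rw [sum_ite_eq']
      split_ifs <;> norm_num
    | succ C ih =>
      calc ∑ f ∈ (Icc 1 X).filter Squarefree, cw (C + 1) f / f
          = ∑ f ∈ (Icc 1 X).filter Squarefree,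
              ∑ g ∈ (Icc 1 X).filter Squarefree, (if g ∣ f then cw C g * (1 / f) else 0) := by
            refine sum_congr rfl fun f hf => ?_
            rw [mem_filter, mem_Icc] at hf
            rw [cw_succ C f hf.2, sum_div, ← sum_filter]
            refine sum_congr ?_ fun g _ => by ring
            ext g
            rw [Nat.mem_divisors, mem_filter, mem_filter, mem_Icc]
            constructor
            · rintro ⟨h1, h2⟩
              exact ⟨⟨⟨Nat.pos_of_dvd_of_pos h1 (by omega),
                (Nat.le_of_dvd (by omega) h1).trans hf.1.2⟩, hf.2.squarefree_of_dvd h1⟩, h1⟩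
            · rintro ⟨_, h1⟩
              exact ⟨h1, by omega⟩
        _ ≤ ∑ f ∈ Icc 1 X,
              ∑ g ∈ (Icc 1 X).filter Squarefree, (if g ∣ f then cw C g * (1 / f) else 0) := by
            refine sum_le_sum_of_subset_of_nonneg (filter_subset _ _) fun f _ _ =>
              sum_nonneg fun g _ => ?_
            split_ifs
            · have := cw_nonneg C g
              positivity
            · exact le_rfl
        _ = ∑ g ∈ (Icc 1 X).filter Squarefree, cw C g *
              ∑ f ∈ (Icc 1 X).filter (fun f => g ∣ f), (1 : ℝ) / f := by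
            rw [sum_comm]
            refine sum_congr rfl fun g _ => ?_
            rw [← sum_filter, mul_sum]
        _ ≤ ∑ g ∈ (Icc 1 X).filter Squarefree, cw C g / g * (1 + Real.log X) := by
            refine sum_le_sum fun g hg => ?_
            rw [mem_filter, mem_Icc] at hg
            have h1 := (sum_mult_le X g hg.1.1).trans
              (mul_le_mul_of_nonneg_left (sum_inv_le X) (by positivity))
            calc cw C g * ∑ f ∈ (Icc 1 X).filter (fun f => g ∣ f), (1 : ℝ) / f
                ≤ cw C g * (1 / g * (1 + Real.log X)) :=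
                  mul_le_mul_of_nonneg_left h1 (cw_nonneg C g)
              _ = cw C g / g * (1 + Real.log X) := by ring
        _ = (∑ g ∈ (Icc 1 X).filter Squarefree, cw C g / g) * (1 + Real.log X) := by
            rw [sum_mul]
        _ ≤ (1 + Real.log X) ^ C * (1 + Real.log X) :=
            mul_le_mul_of_nonneg_right ih (by linarith)
        _ = (1 + Real.log X) ^ (C + 1) := by rw [pow_succ]
  exact key C1

/-! ## NBAD -/

/-- exponential decay in the square root of the logarithm beats powers -/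
lemma decay (κ A : ℝ) (n : ℕ) (hκ : 0 < κ) :
    Tendsto (fun L : ℝ => A * (√L) ^ n * Real.exp (-(κ * √L))) atTop (nhds 0) := by
  have h1 : Tendsto (fun L : ℝ => κ * √L) atTop atTop :=
    Tendsto.const_mul_atTop hκ Real.tendsto_sqrt_atTop
  have h2 := (Real.tendsto_pow_mul_exp_neg_atTop_nhds_zero n).comp h1
  have h3 := h2.const_mul (A / κ ^ n)
  rw [mul_zero] at h3
  refine h3.congr fun L => ?_
  simp only [Function.comp]
  rw [mul_pow]
  field_simp

theorem T2_NBAD : P2_CC4 → P2_NB → P2_NBAD := by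
  intro hCC4 hNB a ha M hM C1 i0 l ε hl hε
  obtain ⟨c, hc0, hc2, y0, hC⟩ := hCC4 M hM
  obtain ⟨X1, hX1⟩ := hNB a ha 1 one_pos
  -- sizes
  have e1 : ∀ᶠ X : ℕ in atTop, max y0 (⌈l ^ 2⌉₊) ≤ yA a X :=
    Run7.h784.CG.yA_ge (by linarith) _
  have e2 : ∀ᶠ X : ℕ in atTop, max 1 (((i0 : ℝ) + 1) ^ 2) ≤ Real.log X :=
    Run7.h784.CG.tendsto_log.eventually_ge_atTop _
  have hd := decay (2 * c) (2500 * 2 ^ C1 * Real.exp (2 * c * i0)) (2 * (C1 + 2)) (by positivity)
  have e3 : ∀ᶠ X : ℕ in atTop, 2500 * 2 ^ C1 * Real.exp (2 * c * i0) *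
      (√(Real.log X)) ^ (2 * (C1 + 2)) * Real.exp (-(2 * c * √(Real.log X))) ≤ ε :=
    (Run7.h784.CG.tendsto_log.eventually (hd.eventually (ge_mem_nhds hε))).mono fun X h => h
  obtain ⟨X0, hX0⟩ := eventually_atTop.1 (e1.and (e2.and e3))
  refine ⟨max X0 X1, fun X hX k hk1 hk2 => ?_⟩
  obtain ⟨h1, h2, h3⟩ := hX0 X ((le_max_left _ _).trans hX)
  obtain ⟨_, _, _, hklog, hksq, _, hkPA, _⟩ := hX1 X ((le_max_right _ _).trans hX)
  have hL1 : 1 ≤ Real.log X := (le_max_left _ _).trans h2
  have hL0 : 0 < Real.log X := by linarith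
  have hLi : ((i0 : ℝ) + 1) ^ 2 ≤ Real.log X := (le_max_right _ _).trans h2
  have hsq : (i0 : ℝ) + 1 ≤ √(Real.log X) := by
    rw [← Real.sqrt_sq (by positivity : (0 : ℝ) ≤ (i0 : ℝ) + 1)]
    exact Real.sqrt_le_sqrt hLi
  have hkR : √(Real.log X) - i0 ≤ k := by
    have h4 : (kA a X : ℝ) ≤ k + i0 := by
      have : kA a X ≤ k + i0 := by omega
      exact_mod_cast this
    linarith
  have hk0 : 1 ≤ k := by
    have : (0 : ℝ) < k := by linarith
    have : 0 < k := by exact_mod_cast this
    omega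
  have hkP : k ^ 2 ≤ (PP (yA a X)).card := by
    have h5 : k ^ 2 ≤ (kA a X) ^ 2 := Nat.pow_le_pow_left hk2 2
    have h6 : 4 * (kA a X) ^ 2 ≤ (PP (yA a X)).card := hkPA
    omega
  have hy0 : y0 ≤ yA a X := (le_max_left _ _).trans h1
  have hly : l ≤ √(yA a X : ℝ) := by
    rw [← Real.sqrt_sq hl.le]
    apply Real.sqrt_le_sqrt
    have h7 : ⌈l ^ 2⌉₊ ≤ yA a X := (le_max_right _ _).trans h1
    exact (Nat.le_ceil _).trans (by exact_mod_cast h7)
  have hc1 : 0 ≤ 1 - c := by linarith
  refine ⟨50 * √(k : ℝ) * (1 - c) ^ k * ((PP (yA a X)).card.choose k), by positivity, ?_, ?_⟩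
  · have hCA : CA a X k = ((PP (yA a X)).card.choose k : ℝ) := rfl
    rw [hCA]
    set N : ℝ := ((PP (yA a X)).card.choose k : ℝ)
    have hkL : (k : ℝ) ≤ Real.log X := by
      have : (k : ℝ) ≤ kA a X := by exact_mod_cast hk2
      linarith
    have hpow : ((1 - c) ^ k) ^ 2 ≤ Real.exp (2 * c * i0) * Real.exp (-(2 * c * √(Real.log X))) := by
      have h8 : (1 - c) ^ k ≤ Real.exp (-(c * k)) := by
        have h9 : 1 - c ≤ Real.exp (-c) := by
          have := Real.add_one_le_exp (-c)
          linarith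
        calc (1 - c) ^ k ≤ (Real.exp (-c)) ^ k := pow_le_pow_left₀ hc1 h9 k
          _ = Real.exp (-(c * k)) := by
            rw [← Real.exp_nat_mul]
            congr 1
            ring
      calc ((1 - c) ^ k) ^ 2 ≤ (Real.exp (-(c * k))) ^ 2 :=
            pow_le_pow_left₀ (by positivity) h8 2
        _ = Real.exp (-(2 * c * k)) := by
            rw [← Real.exp_nat_mul]
            congr 1
            push_cast
            ring
        _ ≤ Real.exp (2 * c * i0 + -(2 * c * √(Real.log X))) := by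
            apply Real.exp_le_exp.2
            nlinarith
        _ = _ := Real.exp_add _ _
    have hS : Real.log X = (√(Real.log X)) ^ 2 := (Real.sq_sqrt hL0.le).symm
    have h1L : 1 + Real.log X ≤ 2 * Real.log X := by linarith
    rw [div_mul_eq_mul_div, le_div_iff₀ hL0]
    calc (50 * √(k : ℝ) * (1 - c) ^ k * N) ^ 2 * (1 + Real.log X) ^ C1 * Real.log X
        = 2500 * (√(k : ℝ)) ^ 2 * ((1 - c) ^ k) ^ 2 * (1 + Real.log X) ^ C1 * Real.log X *
            N ^ 2 := by ring
      _ = 2500 * k * ((1 - c) ^ k) ^ 2 * (1 + Real.log X) ^ C1 * Real.log X * N ^ 2 := by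
            rw [Real.sq_sqrt (Nat.cast_nonneg k)]
      _ ≤ 2500 * Real.log X *
            (Real.exp (2 * c * i0) * Real.exp (-(2 * c * √(Real.log X)))) *
            (2 * Real.log X) ^ C1 * Real.log X * N ^ 2 := by
            gcongr
      _ = (2500 * 2 ^ C1 * Real.exp (2 * c * i0) *
            (Real.log X ^ (C1 + 2)) * Real.exp (-(2 * c * √(Real.log X)))) * N ^ 2 := by
            rw [mul_pow]
            ring
      _ = (2500 * 2 ^ C1 * Real.exp (2 * c * i0) *
            (√(Real.log X)) ^ (2 * (C1 + 2)) * Real.exp (-(2 * c * √(Real.log X)))) * N ^ 2 := by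
            rw [pow_mul, ← hS]
      _ ≤ ε * N ^ 2 := mul_le_mul_of_nonneg_right h3 (by positivity)
  · intro ψ f hfs hfc hne hnb ξ hξ
    have hle : ‖∑ p ∈ PP (yA a X), ψ (p : ZMod M) * ((jacobiSym (p : ℤ) f : ℤ) : ℂ)‖ ≤
        (9 / 10 : ℝ) * (PP (yA a X)).card := by
      by_contra h
      exact hnb ⟨ψ, hne, lt_of_not_ge h⟩
    exact hC (yA a X) hy0 ψ f hfs hfc hle k hk0 hkP ξ (hξ.trans hly)

end Run7.h426.CG.NBAD
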